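import Mathlib

set_option autoImplicit false

namespace Pool.Agent.MP_1c689d_ag

noncomputable section

/-- The standard topological `n`-simplex. -/
abbrev Sx (n : ℕ) : Type := stdSimplex ℝ (Fin (n + 1))

/-- The `j`-th face inclusion of the standard `n`-simplex in the standard `(n+1)`-simplex. -/
def face (n : ℕ) (j : Fin (n + 2)) : C(Sx n, Sx (n + 1)) :=
  ⟨stdSimplex.map j.succAbove, stdSimplex.continuous_map _⟩

/-- The coboundary of a rational singular `n`-cochain. -/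
def cob {X : Type} [TopologicalSpace X] {n : ℕ} (φ : C(Sx n, X) → ℚ) (σ : C(Sx (n + 1), X)) : ℚ :=
  ∑ j : Fin (n + 2), (-1) ^ (j : ℕ) * φ (σ.comp (face n j))

/-- The restriction map `H^(i+1)(Y, ℚ) → H^(i+1)(U, ℚ)` in singular cohomology is zero: every
singular `(i+1)`-cocycle of `Y` restricts to a coboundary on the subspace `U`. -/
def RestrictionZero {Y : Type} [TopologicalSpace Y] (U : Set Y) (i : ℕ) : Prop :=
  ∀ φ : C(Sx (i + 1), Y) → ℚ, (∀ σ, cob φ σ = 0) →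
    ∃ ψ : C(Sx i, U) → ℚ, ∀ σ : C(Sx (i + 1), U),
      φ ((⟨Subtype.val, continuous_subtype_val⟩ : C(U, Y)).comp σ) = cob ψ σ

/-- The punctured affine cone `{x ≠ 0 | ∑ⱼ Mₖⱼ xⱼ^p = 0 for all k}` over the Fermat-type complete
intersection `X ⊆ ℙ(ℂ^ι)`, with its analytic topology. -/
abbrev Cone (p : ℕ) {ι : Type} [Fintype ι] {r : ℕ} (M : Matrix (Fin r) ι ℂ) : Type :=
  {x : ι → ℂ // x ≠ 0 ∧ M.mulVec (fun j => x j ^ p) = 0}

/-- `x ∼ y` iff `yⱼ = c · exp(2πi hⱼ/p) · xⱼ` for some `c ∈ ℂˣ` and `h ∈ H`. -/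
def rel (p : ℕ) [NeZero p] {ι : Type} [Fintype ι] {r : ℕ} (M : Matrix (Fin r) ι ℂ)
    (H : AddSubgroup (ι → ZMod p)) : Setoid (Cone p M) where
  r x y := ∃ c : ℂ, c ≠ 0 ∧ ∃ h ∈ H, ∀ j, y.1 j = c * ZMod.stdAddChar (h j) * x.1 j
  iseqv :=
    { refl := fun x => ⟨1, one_ne_zero, 0, H.zero_mem, fun j => by simp⟩
      symm := by
        rintro x y ⟨c, hc, h, hh, e⟩
        refine ⟨c⁻¹, inv_ne_zero hc, -h, H.neg_mem hh, fun j => ?_⟩
        have h1 : ZMod.stdAddChar (-h j) * ZMod.stdAddChar (h j) = (1 : ℂ) := by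
          rw [← AddChar.map_add_eq_mul]
          simp
        rw [e j, Pi.neg_apply]
        linear_combination (-x.1 j * c⁻¹ * c) * h1 - x.1 j * inv_mul_cancel₀ hc
      trans := by
        rintro x y z ⟨c, hc, h, hh, e⟩ ⟨c', hc', h', hh', e'⟩
        refine ⟨c' * c, mul_ne_zero hc' hc, h' + h, H.add_mem hh' hh, fun j => ?_⟩
        rw [e' j, e j, Pi.add_apply, AddChar.map_add_eq_mul]
        ring }

/-- The complex points of `Y = X / H`, with the quotient (analytic) topology. -/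
abbrev Quo (p : ℕ) [NeZero p] {ι : Type} [Fintype ι] {r : ℕ} (M : Matrix (Fin r) ι ℂ)
    (H : AddSubgroup (ι → ZMod p)) : Type := Quotient (rel p M H)

/-- The Zariski open subset `Q(x₁^p, …, x_L^p) ≠ 0` of `Y`. -/
def Zopen (p : ℕ) [NeZero p] {ι : Type} [Fintype ι] {r : ℕ} (M : Matrix (Fin r) ι ℂ)
    (H : AddSubgroup (ι → ZMod p)) (Q : MvPolynomial ι ℂ) : Set (Quo p M H) :=
  {y | ∃ x : Cone p M, Quotient.mk (rel p M H) x = y ∧
    MvPolynomial.eval (fun j => x.1 j ^ p) Q ≠ 0}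

/-- `v` is tangent to the cone at `x`: it is killed by the differentials of the equations. -/
def Tan (p : ℕ) {ι : Type} [Fintype ι] {r : ℕ} (M : Matrix (Fin r) ι ℂ) (x v : ι → ℂ) : Prop :=
  M.mulVec (fun j => x j ^ (p - 1) * v j) = 0

/-- `ω` (only its values on tangent vectors matter) is the pull-back to the cone of a holomorphic
`n`-form on `Y = X / H`: it is locally the restriction of a holomorphic `n`-form on an open subset
of `ℂ^ι`, it is killed by the Euler vector field, and it is invariant under `ℂˣ · H`. -/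
structure IsForm (p : ℕ) [NeZero p] {ι : Type} [Fintype ι] {r : ℕ} (M : Matrix (Fin r) ι ℂ)
    (H : AddSubgroup (ι → ZMod p)) (n : ℕ) (ω : Cone p M → (Fin n → ι → ℂ) → ℂ) : Prop where
  holo : ∀ x : Cone p M, ∃ (W : Set (ι → ℂ)) (Ω : (ι → ℂ) → AlternatingMap ℂ (ι → ℂ) ℂ (Fin n)),
    IsOpen W ∧ x.1 ∈ W ∧ (∀ v, DifferentiableOn ℂ (fun z => Ω z v) W) ∧
      ∀ y : Cone p M, y.1 ∈ W → ∀ v, (∀ i, Tan p M y.1 (v i)) → ω y v = Ω y.1 v
  horiz : ∀ (x : Cone p M) (v : Fin n → ι → ℂ), (∀ i, Tan p M x.1 (v i)) → (∃ i, v i = x.1) →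
    ω x v = 0
  inv : ∀ (x y : Cone p M) (c : ℂ), ∀ h ∈ H, (∀ j, y.1 j = c * ZMod.stdAddChar (h j) * x.1 j) →
    ∀ v : Fin n → ι → ℂ, (∀ i, Tan p M x.1 (v i)) →
      ω y (fun i j => c * ZMod.stdAddChar (h j) * v i j) = ω x v

/-- `h^{n,0}(Y) = 0`: every holomorphic `n`-form on `Y = X / H` vanishes. -/
def NoForm (p : ℕ) [NeZero p] {ι : Type} [Fintype ι] {r : ℕ} (M : Matrix (Fin r) ι ℂ)
    (H : AddSubgroup (ι → ZMod p)) (n : ℕ) : Prop :=
  ∀ ω, IsForm p M H n ω → ∀ (x : Cone p M) (v : Fin n → ι → ℂ), (∀ i, Tan p M x.1 (v i)) →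
    ω x v = 0

end

end Pool.Agent.MP_1c689d_ag
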